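import Pool.Agent.W529.ST.Lim

/-!
# One finite extension governs the Sato-Tate distributions of all twists and base changes

Let `A` be an abelian variety of dimension `g` over a number field `K`, `G = ST(A)` its Sato-Tate group, a
closed subgroup of the compact group `H = USp(2g)`, and `x_v ∈ G` a representative of the conjugacy class
of the normalised Frobenius at the prime `v` (an arbitrary element if the reduction is bad).  The group
`G` contains `z = -1`.  For a finite extension `F` of `K` and a nonzero `d ∈ 𝓞_F` let `A_{F,d}` be the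
twist of `A_F` by the quadratic character of `F(√d)/F`.  Its normalised Frobenius at a prime `w ∤ 2d` of
good reduction over `v` is `± x_v^f`, `f` the residue degree of `w/v`, with the sign `+` if and only if `d`
is a square modulo `w`.  The Sato-Tate conjecture describes the distribution of the classes for all
`A_{F,d}`.  Every infinite set of scales contains an infinite subset `S'` along which all these
distributions converge, and the theorem says that one finite Galois extension `M/K` governs the limits for
all `F` of degree at most `n`.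
-/

set_option autoImplicit false

namespace Pool.Agent.Results.MP_c481b3_nt.GoverningExtension

open NumberField IsDedekindDomain Filter Topology MeasureTheory

/-- The mean of `φ` over the primes of `F` of norm at most `N`. -/
noncomputable def mean (F : Type) [Field F] [NumberField F] (φ : HeightOneSpectrum (𝓞 F) → ℝ)
    (N : ℕ) : ℝ :=
  (∑ᶠ v : {v : HeightOneSpectrum (𝓞 F) // Ideal.absNorm v.asIdeal ≤ N}, φ v.1) /
    (Nat.card {v : HeightOneSpectrum (𝓞 F) // Ideal.absNorm v.asIdeal ≤ N} : ℝ)

section
variable {K : Type} [Field K] [NumberField K]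

/-- The prime of `K` below the prime `w` of `F`. -/
noncomputable def under (F : IntermediateField K (AlgebraicClosure K)) [NumberField F]
    (w : HeightOneSpectrum (𝓞 F)) : HeightOneSpectrum (𝓞 K) where
  asIdeal := w.asIdeal.comap (algebraMap (𝓞 K) (𝓞 F))
  isPrime := w.isPrime.comap _
  ne_bot := fun h => w.ne_bot (Ideal.eq_bot_of_comap_eq_bot h)

/-- The element of `G` that represents the class of `A_{F,d}` at `w`: `x_v^f` if `d` is a square modulo
`w`, and `z x_v^f` if it is not, `v` the prime of `K` below `w` and `N(w) = N(v)^f`. -/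
noncomputable def cls {G : Type} [Group G] (z : G) (x : HeightOneSpectrum (𝓞 K) → G)
    (F : IntermediateField K (AlgebraicClosure K)) [NumberField F] (d : 𝓞 F)
    (w : HeightOneSpectrum (𝓞 F)) : G :=
  open Classical in (if IsSquare (Ideal.Quotient.mk w.asIdeal d) then 1 else z) *
    x (under F w) ^ Nat.log (Ideal.absNorm (under F w).asIdeal) (Ideal.absNorm w.asIdeal)

/-- `d ∈ 𝓞_F` has a square root in the field `E`. -/
def HasRoot {F : IntermediateField K (AlgebraicClosure K)} (d : 𝓞 F)
    (E : IntermediateField K (AlgebraicClosure K)) : Prop :=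
  ∃ y ∈ E, y ^ 2 = ((d : F) : AlgebraicClosure K)

/-- The product `d e` of `d ∈ 𝓞_F` and `e ∈ 𝓞_{F₀}` has a square root in `F`. -/
def ProdRoot {F F₀ : IntermediateField K (AlgebraicClosure K)} (d : 𝓞 F) (e : 𝓞 F₀) : Prop :=
  ∃ y ∈ F, y ^ 2 = ((d : F) : AlgebraicClosure K) * ((e : F₀) : AlgebraicClosure K)

/-- Either `√e ∈ M` and `d e` is a square in `F`, or `√d ∉ F M` and `√e ∉ M`. -/
def Related (M : IntermediateField K (AlgebraicClosure K))
    {F F₀ : IntermediateField K (AlgebraicClosure K)} (d : 𝓞 F) (e : 𝓞 F₀) : Prop :=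
  (HasRoot e M ∧ ProdRoot d e) ∨ (¬ HasRoot d (F ⊔ M) ∧ ¬ HasRoot e M)

end

/-- The measures `μ` and `ν` on `G` satisfy `|∫ f dμ - ∫ f dν| < ε` for all functions `f`
with `|f(g) - f(h)| ≤ dist g h` and `|f| ≤ 1`. -/
def Close {G : Type} [MetricSpace G] [MeasurableSpace G] (ε : ℝ) (μ ν : Measure G) : Prop :=
  ∀ f : G → ℝ, LipschitzWith 1 f → (∀ g, |f g| ≤ 1) → |∫ y, f y ∂μ - ∫ y, f y ∂ν| < ε

/-- A family of measures `μ_{F,d}` on `G`, for all finite extensions `F` of `K` (in an algebraic
closure) and all `d ∈ 𝓞_F`. -/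
def Family (K : Type) [Field K] [NumberField K] (G : Type) [MeasurableSpace G] : Type :=
  ∀ (F : IntermediateField K (AlgebraicClosure K)) (_ : NumberField F), 𝓞 F → Measure G

/-- `μ_{F,d}` is a probability measure on `G` and the limit distribution of the elements `cls z x F d w`
along the scales in `S`, for all `F` and `d`: the mean of `f (cls z x F d w)` over the primes `w` of `F`
of norm at most `N` tends to `∫ f dμ_{F,d}`, `N → ∞` in `S`, for all continuous `f : G → ℝ`. -/
def IsLimit {K : Type} [Field K] [NumberField K] {G : Type} [Group G] [MetricSpace G]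
    [MeasurableSpace G] (z : G) (x : HeightOneSpectrum (𝓞 K) → G) (S : Set ℕ)
    (μ : Family K G) : Prop :=
  ∀ (F : IntermediateField K (AlgebraicClosure K)) (hF : NumberField F) (d : 𝓞 F),
    IsProbabilityMeasure (μ F hF d) ∧ ∀ f : G → ℝ, Continuous f →
      Tendsto (mean F fun w => f (cls z x F d w)) (atTop ⊓ 𝓟 S) (𝓝 (∫ y, f y ∂(μ F hF d)))

/-- If `√d ∉ F M`, then `μ_{F,d}` is invariant under `z`, up to `ε`, for all `F` of degree at most `n`. -/
def Invariant {K : Type} [Field K] [NumberField K] {G : Type} [Group G] [MetricSpace G]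
    [MeasurableSpace G] (z : G) (μ : Family K G) (n : ℕ) (ε : ℝ)
    (M : IntermediateField K (AlgebraicClosure K)) : Prop :=
  ∀ (F : IntermediateField K (AlgebraicClosure K)) (hF : NumberField F) (d : 𝓞 F),
    Module.finrank K F ≤ n → d ≠ 0 → ¬ HasRoot d (F ⊔ M) →
    Close ε (μ F hF d) ((μ F hF d).map (fun y => z * y))

/-- If `F₀ = F ∩ M` and `d ∈ 𝓞_F`, `e ∈ 𝓞_{F₀}` are related, then `μ_{F,d}` and `μ_{F₀,e}` are equal, up
to `ε`, for all `F` of degree at most `n`. -/
def Descends {K : Type} [Field K] [NumberField K] {G : Type} [MetricSpace G]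
    [MeasurableSpace G] (μ : Family K G) (n : ℕ) (ε : ℝ)
    (M : IntermediateField K (AlgebraicClosure K)) : Prop :=
  ∀ (F F₀ : IntermediateField K (AlgebraicClosure K)) (hF : NumberField F) (hF₀ : NumberField F₀)
    (d : 𝓞 F) (e : 𝓞 F₀), F₀ = F ⊓ M → Module.finrank K F ≤ n → d ≠ 0 → e ≠ 0 →
    Related M d e → Close ε (μ F hF d) (μ F₀ hF₀ e)

/-- There are at most `4^([M:K]+1)` pairs `(F_a, e_a)`, `F_a ⊆ M` and `e_a ∈ 𝓞_{F_a}`, such that
for all `F` of degree at most `n` and all `d` there is an `a` with `F_a = F ∩ M`, with `e_a` related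
to `d` and with `μ_{F,d}` equal to `μ_{F_a,e_a}`, up to `ε`. -/
def FinitelyMany {K : Type} [Field K] [NumberField K] {G : Type} [MetricSpace G]
    [MeasurableSpace G] (μ : Family K G) (n : ℕ) (ε : ℝ)
    (M : IntermediateField K (AlgebraicClosure K)) : Prop :=
  ∃ (l : ℕ) (F' : Fin l → IntermediateField K (AlgebraicClosure K))
    (hF' : ∀ a, NumberField (F' a)) (e : ∀ a, 𝓞 (F' a)),
    l ≤ 4 ^ (Module.finrank K M + 1) ∧ (∀ a, F' a ≤ M ∧ e a ≠ 0) ∧
    ∀ (F : IntermediateField K (AlgebraicClosure K)) (hF : NumberField F) (d : 𝓞 F),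
      Module.finrank K F ≤ n → d ≠ 0 → ∃ a, F' a = F ⊓ M ∧ Related M d (e a) ∧
        Close ε (μ F hF d) (μ (F' a) (hF' a) (e a))

/-- The finite Galois extension `M/K` governs the measures `μ_{F,d}`, for all `F` of degree at most `n`,
up to `ε`. -/
def Governs {K : Type} [Field K] [NumberField K] {G : Type} [Group G] [MetricSpace G]
    [MeasurableSpace G] (z : G) (μ : Family K G) (n : ℕ) (ε : ℝ)
    (M : IntermediateField K (AlgebraicClosure K)) : Prop :=
  FiniteDimensional K M ∧ IsGalois K M ∧ Invariant z μ n ε M ∧ Descends μ n ε M ∧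
    FinitelyMany μ n ε M

theorem no_root {K : Type} [Field K] [NumberField K]
    {F E : IntermediateField K (AlgebraicClosure K)} {d : 𝓞 F} :
    ¬ HasRoot d E ↔ ∀ y ∈ E, y ^ 2 ≠ Pool.Agent.W529.ST.inj d := by
  unfold HasRoot Pool.Agent.W529.ST.inj
  push Not
  rfl

theorem related_iff {K : Type} [Field K] [NumberField K]
    {M F F₀ : IntermediateField K (AlgebraicClosure K)} {d : 𝓞 F} {e : 𝓞 F₀} :
    Related M d e ↔ Pool.Agent.W529.ST.Related M d e := by
  unfold Related Pool.Agent.W529.ST.Related
  rw [no_root, no_root]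
  constructor
  · rintro (⟨h1, h2⟩ | h)
    · exact Or.inl ⟨h2, h1⟩
    · exact Or.inr h
  · rintro (⟨h1, h2⟩ | h)
    · exact Or.inl ⟨h2, h1⟩
    · exact Or.inr h

/-- extension of test functions from a subgroup -/
theorem extend_test {H : Type} [Group H] [MetricSpace H] (G : Subgroup H) (f : G → ℝ)
    (hf : LipschitzWith 1 f) (hf1 : ∀ g, |f g| ≤ 1) :
    ∃ f' : H → ℝ, Pool.Agent.W529.ST.Test f' ∧ ∀ g : G, f' g = f g := by
  classical
  let f0 : H → ℝ := fun h => if hh : h ∈ G then f ⟨h, hh⟩ else 0
  have h0 : LipschitzOnWith 1 f0 (G : Set H) := by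
    refine LipschitzOnWith.of_dist_le_mul fun a ha b hb => ?_
    have ea : f0 a = f ⟨a, ha⟩ := dif_pos ha
    have eb : f0 b = f ⟨b, hb⟩ := dif_pos hb
    rw [ea, eb]
    exact hf.dist_le_mul _ _
  obtain ⟨g, hg1, hg2⟩ := h0.extend_real
  refine ⟨fun h => max (-1) (min 1 (g h)), ⟨?_, fun h => ?_⟩, fun a => ?_⟩
  · exact (hg1.const_min 1).const_max (-1)
  · rw [abs_le]
    exact ⟨le_max_left _ _, max_le (by norm_num) (min_le_left _ _)⟩
  · have h1 : g (a : H) = f a := by
      rw [← hg2 a.2]
      exact dif_pos a.2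
    have h2 := abs_le.1 (hf1 a)
    change max (-1) (min 1 (g (a : H))) = f a
    rw [h1, min_eq_right h2.2, max_eq_right h2.1]

theorem card_one {K : Type} [Field K] [NumberField K] (v : HeightOneSpectrum (𝓞 K)) :
    1 < Ideal.absNorm v.asIdeal := by
  have h := Pool.Agent.H921R2.TatePole.two_le_nm v
  unfold Pool.Agent.H921R2.TatePole.nm at h
  omega

/-- **One finite extension governs the distributions for all twists and base changes.**  Let `H` be a
compact metric group (for example `USp(2g)`) and `z ∈ H` an element with `z² = 1` (for example `-1`) such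
that multiplication by `z` does not increase distances.  There are bounds `B(n, k)` with the following
property.  Let `K` be a number field, `G` a closed subgroup of `H` that contains `z` and `x_v ∈ G`, for
the primes `v` of `K`.  Every infinite set of scales contains an infinite subset `S'` such that for all
finite extensions `F` of `K` (in an algebraic closure) and all `d ∈ 𝓞_F` the elements that represent the
classes of `A_{F,d}` have a limit distribution `μ_{F,d}` on `G` along the scales in `S'`.  For all `n`,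
all `k ≥ 1` and every finite Galois extension `L` of `K` there is a finite Galois extension `M` of `K`,
`L ⊆ M`, of degree at most `B(n, k) [L : K]`, that governs these measures, for all `F` of degree at most
`n` over `K`, up to `1 / k`. -/
theorem result (H : Type) [Group H] [MetricSpace H] [CompactSpace H] [MeasurableSpace H]
    [BorelSpace H] (z : H) (hz : z * z = 1) (hzd : ∀ a b : H, dist (z * a) (z * b) ≤ dist a b) :
    ∃ B : ℕ → ℕ → ℕ, ∀ (K : Type) [Field K] [NumberField K] (G : Subgroup H)
      (_ : IsClosed (G : Set H)) (hzG : z ∈ G) (x : HeightOneSpectrum (𝓞 K) → G) (S : Set ℕ)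
      (_ : S.Infinite), ∃ S' ⊆ S, S'.Infinite ∧ ∃ μ : Family K G, IsLimit ⟨z, hzG⟩ x S' μ ∧
        ∀ n k : ℕ, 1 ≤ k → ∀ L : IntermediateField K (AlgebraicClosure K),
          FiniteDimensional K L → IsGalois K L →
          ∃ M : IntermediateField K (AlgebraicClosure K), L ≤ M ∧
            Module.finrank K M ≤ B n k * Module.finrank K L ∧ Governs ⟨z, hzG⟩ μ n (1 / k) M := by
  classical
  have hmain := fun (n k : ℕ) (hk : 1 ≤ k) => Pool.Agent.W529.ST.main_U H n k hk
  refine ⟨fun n k => if hk : 1 ≤ k then (hmain n k hk).choose else 0, ?_⟩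
  intro K _ _ G hG hzG x S hS
  have hGc : CompactSpace G := isCompact_iff_compactSpace.1 hG.isCompact
  let zG : G := ⟨z, hzG⟩
  let c : ∀ (F : IntermediateField K (AlgebraicClosure K)) [NumberField F],
      𝓞 F → HeightOneSpectrum (𝓞 F) → G := fun F _ d w => cls zG x F d w
  obtain ⟨S', hS', hinf, μ, hμ⟩ := Pool.Agent.W529.ST.exists_limits (X := G) c S hS
  refine ⟨S', hS', hinf, fun F hF d => (μ F d : Measure G), fun F hF d =>
    ⟨inferInstance, fun f hf => hμ F d f hf⟩, fun n k hk L _ _ => ?_⟩
  -- an ultrafilter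
  have hne : (atTop ⊓ 𝓟 S' : Filter ℕ).NeBot := by
    rw [← Nat.cofinite_eq_atTop]
    exact hinf.cofinite_inf_principal_neBot
  let U : Ultrafilter ℕ := Ultrafilter.of (atTop ⊓ 𝓟 S')
  have hU0 : (U : Filter ℕ) ≤ atTop ⊓ 𝓟 S' := Ultrafilter.of_le _
  have hU : (U : Filter ℕ) ≤ atTop := hU0.trans inf_le_left
  -- the family in `H`
  let x' : HeightOneSpectrum (𝓞 K) → H := fun v => (x v : H)
  let c' : ∀ (F : IntermediateField K (AlgebraicClosure K)) [NumberField F],
      𝓞 F → HeightOneSpectrum (𝓞 F) → H := fun F _ d w => ((cls zG x F d w : G) : H)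
  have hfam : Pool.Agent.W529.ST.IsFamily (fun y => z * y) x' c' := by
    intro F _ d w v hwv hnorm h2d
    have hv : under F w = v := HeightOneSpectrum.ext hwv
    have hlog : Nat.log (Ideal.absNorm (under F w).asIdeal) (Ideal.absNorm w.asIdeal) = 1 := by
      rw [hv, hnorm]
      have h1 := card_one v
      have h2 := Nat.log_pow h1 1
      rwa [pow_one] at h2
    constructor
    · intro hsq
      change ((cls zG x F d w : G) : H) = (x v : H)
      unfold cls
      rw [hlog, if_pos hsq, pow_one, one_mul, hv]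
    · intro hsq
      change ((cls zG x F d w : G) : H) = z * (x v : H)
      unfold cls
      rw [hlog, if_neg hsq, pow_one, hv]
      rfl
  have hlip : LipschitzWith 1 (fun y : H => z * y) :=
    LipschitzWith.of_dist_le_mul fun a b => by
      rw [NNReal.coe_one, one_mul]
      exact hzd a b
  have hinv : ∀ y : H, z * (z * y) = y := fun y => by rw [← mul_assoc, hz, one_mul]
  obtain ⟨M, hLM, hM1, hM2, hM3, hM4, hA, hB⟩ := (hmain n k hk).choose_spec K
    (fun y => z * y) hlip hinv x' c' hfam L U hU
  have hBk : (if hk : 1 ≤ k then (hmain n k hk).choose else 0) = (hmain n k hk).choose :=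
    dif_pos hk
  have hlimU : ∀ (F : IntermediateField K (AlgebraicClosure K)) [NumberField F] (d : 𝓞 F)
      (f : G → ℝ), Continuous f → ∀ f' : H → ℝ, (∀ g : G, f' g = f g) →
      Tendsto (Pool.Agent.W529.ST.mean F (fun w => f' (c' F d w))) U
        (𝓝 (∫ y, f y ∂(μ F d : Measure G))) := by
    intro F _ d f hf f' hf'
    have h1 := (hμ F d f hf).mono_left hU0
    refine h1.congr fun N => ?_
    congr 1
    funext w
    exact (hf' _).symm
  have hb : ∀ (F F₀ : IntermediateField K (AlgebraicClosure K)) [NumberField F] [NumberField F₀],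
      F₀ = F ⊓ M → Module.finrank K F ≤ n → ∀ (d : 𝓞 F) (e : 𝓞 F₀), d ≠ 0 → e ≠ 0 →
      Related M d e → Close (1 / k) (μ F d : Measure G) (μ F₀ e : Measure G) := by
    intro F F₀ _ _ hF₀ hF d e hd he hR f hf hf1
    obtain ⟨f', hf', hff⟩ := extend_test G f hf hf1
    exact hB F F₀ hF₀ hF d e hd he (related_iff.1 hR) f' hf' _ _
      (hlimU F d f hf.continuous f' hff) (hlimU F₀ e f hf.continuous f' hff)
  refine ⟨M, hLM, ?_, hM1, hM2, ?_, fun F F₀ _ _ d e h1 h2 h3 h4 h5 => hb F F₀ h1 h2 d e h3 h4 h5,
    ?_⟩
  · simp only [hBk]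
    exact hM4
  · intro F _ d hF hd hsq f hf hf1
    obtain ⟨f', hf', hff⟩ := extend_test G f hf hf1
    have hzc : LipschitzWith 1 (fun y : G => zG * y) :=
      LipschitzWith.of_dist_le_mul fun a b => by
        rw [NNReal.coe_one, one_mul]
        exact hzd a b
    have hmap : ∫ y, f y ∂((μ F d : Measure G).map (fun y => zG * y)) =
        ∫ y, f (zG * y) ∂(μ F d : Measure G) := by
      rw [integral_map hzc.continuous.measurable.aemeasurable
        hf.continuous.aestronglyMeasurable]
    have hlip2 : LipschitzWith 1 (fun y : G => f (zG * y)) := by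
      have := hf.comp hzc
      rw [one_mul] at this
      exact this
    rw [hmap]
    refine hA F d hF hd (no_root.1 hsq) f' hf' _ _ (hlimU F d f hf.continuous f' hff) ?_
    have h1 := (hμ F d (fun y => f (zG * y)) hlip2.continuous).mono_left hU0
    refine h1.congr fun N => ?_
    congr 1
    funext w
    exact (hff (zG * cls zG x F d w)).symm
  · obtain ⟨l, G', e, hl, hG', hcov⟩ := Pool.Agent.W529.ST.list_C M
    refine ⟨l, G', fun a => (hG' a).2.1, e, ?_, fun a => ⟨(hG' a).1, (hG' a).2.2⟩, ?_⟩
    · refine hl.trans (le_of_eq ?_)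
      rw [pow_mul]
      norm_num
    · intro F _ d hF hd
      obtain ⟨a, ha1, ha2⟩ := hcov F d hd
      have hnf := (hG' a).2.1
      exact ⟨a, ha1, related_iff.2 ha2, hb F (G' a) ha1 hF d (e a) hd (hG' a).2.2
        (related_iff.2 ha2)⟩

end Pool.Agent.Results.MP_c481b3_nt.GoverningExtension
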