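import Pool.Agent.X208.LD.Bess
import Pool.Agent.X208.LD.Conc

/-!
# The Sato–Tate law for an abelian variety and for its base changes: Bessel's inequality

Let `A` be an abelian variety over a number field `K`, `G = ST(A)` with Haar probability measure `μ`, and
`x_v ∈ G` a representative of the class of the normalised Frobenius at the prime `v` of `K` (an arbitrary
element if the reduction is bad). For a finite extension `L` of `K` the class of `A_L` at a prime `w` of good
reduction over `v` is the class of `x_v^f`, `N(w) = N(v)^f`. Let `disc t L N` be the mean of `t` over the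
primes of `L` of norm at most `N`, minus `∫ t dμ`. If `ST(A_L) = ST(A)`, the Sato–Tate law for `A_L`
says that `disc t L N → 0` for all continuous class functions `t`. Let `r(L) ≤ [L : K]` be the number of
maximal ideals of `L ⊗_K L`, that is, the number of factors over `L` of the minimal polynomial of a generator of
`L/K`; it is `2` if the Galois group of the normal closure acts `2`-transitively on the embeddings of `L`.

Unconditionally:

1. For pairwise linearly disjoint extensions `L_1, ..., L_n` and all continuous `t`, at every large scale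
   `N` one has `disc t K ^ 2 + ∑ (disc t L_i - disc t K) ^ 2 / (r(L_i) - 1) ≤` mean of `(t(x_v) - ∫ t)^2`, up to `ε`.
   So the base changes of `A` to all `L_i` up to few have the same distribution of classes as `A`.
2. The law at `t` over pairwise linearly disjoint `L_i` with `∑ 1 / r(L_i) = ∞`, for instance over
   infinitely many quadratic extensions, or over infinitely many linearly disjoint `S_n`-extensions of
   any degrees `n`, implies the law at `t` over `K`.
3. The Sato–Tate law over one extension of `K` of degree `p` for every prime `p` (or every `p` in a set of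
   primes with `∑ 1 / p = ∞`) implies it over `K`.
4. If the law at `t` fails over `K`, then for every `r` there is a finite Galois extension `M_r` of `K`
   such that it fails over all `L`, of any degree, with `r(L) ≤ r` that are linearly disjoint from `M_r`.
-/

set_option autoImplicit false

namespace Pool.Agent.Results.MP_c481b3_nt.LinearlyDisjointFields

open NumberField IsDedekindDomain Filter Topology MeasureTheory Pool.Agent.X208.LD
open scoped TensorProduct

/-- **Bessel's inequality for base changes, and what it implies for the Sato–Tate law.** -/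
theorem result (K : Type) [Field K] [NumberField K] (G : Type) [Group G] [TopologicalSpace G]
    [IsTopologicalGroup G] [CompactSpace G] [MeasurableSpace G] [BorelSpace G] (μ : Measure G)
    [IsProbabilityMeasure μ] [μ.IsHaarMeasure] (x : HeightOneSpectrum (𝓞 K) → G) :
    -- 1. Bessel's inequality at every large scale
    (∀ (ι : Type) [Fintype ι] (L : ι → Type) [∀ i, Field (L i)] [∀ i, NumberField (L i)]
      [∀ i, Algebra K (L i)], (∀ i j, i ≠ j → IsField (L i ⊗[K] L j)) →
      ∀ t : G → ℝ, Continuous t → ∀ ε : ℝ, 0 < ε → ∀ᶠ N : ℕ in atTop,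
        disc μ x t K N ^ 2 +
          ∑ i, (disc μ x t (L i) N - disc μ x t K N) ^ 2 / ((rk K (L i) (L i) : ℝ) - 1) ≤
        primeMean K (fun v => (t (x v) - ∫ g, t g ∂μ) ^ 2) N + ε) ∧
    -- 2. infinitely many linearly disjoint extensions suffice
    (∀ (ι : Type) (L : ι → Type) [∀ i, Field (L i)] [∀ i, NumberField (L i)]
      [∀ i, Algebra K (L i)], (∀ i j, i ≠ j → IsField (L i ⊗[K] L j)) →
      ¬ Summable (fun i => 1 / (rk K (L i) (L i) : ℝ)) →
      ∀ t : G → ℝ, Continuous t → (∀ i, Tendsto (disc μ x t (L i)) atTop (𝓝 0)) →
        Tendsto (disc μ x t K) atTop (𝓝 0)) ∧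
    -- 3. one extension of every prime degree suffices
    (∀ S : Set ℕ, (∀ p ∈ S, p.Prime) → ¬ Summable (fun p : S => 1 / ((p : ℕ) : ℝ)) →
      (∀ p ∈ S, ∃ (L : Type) (_ : Field L) (_ : NumberField L) (_ : Algebra K L),
        Module.finrank K L = p ∧ SatoTate μ x L) → SatoTate μ x K) ∧
    -- 4. failures over `K` propagate to all extensions of bounded rank outside of one finite extension
    (∀ t : G → ℝ, Continuous t → ¬ Tendsto (disc μ x t K) atTop (𝓝 0) →
      ∀ r : ℕ, ∃ (M : Type) (_ : Field M) (_ : NumberField M) (_ : Algebra K M), IsGalois K M ∧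
        ∀ (L : Type) [Field L] [NumberField L] [Algebra K L], rk K L L ≤ r →
          IsField (L ⊗[K] M) → ¬ Tendsto (disc μ x t L) atTop (𝓝 0)) := by
  have hbd : ∀ t : G → ℝ, Continuous t → ∃ B : ℝ, ∀ g, |t g - ∫ g, t g ∂μ| ≤ B := by
    intro t ht
    obtain ⟨C, hC⟩ := (isCompact_range (ht.sub continuous_const :
      Continuous fun g => t g - ∫ g, t g ∂μ)).isBounded.exists_norm_le
    exact ⟨C, fun g => hC _ ⟨g, rfl⟩⟩
  refine ⟨?_, ?_, ?_, ?_⟩
  · intro ι _ L _ _ _ hL t ht ε hε
    obtain ⟨B, hB⟩ := hbd t ht
    exact bessel_disc μ x L hL t hB hε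
  · intro ι L _ _ _ hL hs t ht hlaw
    obtain ⟨B, hB⟩ := hbd t ht
    exact disc_infinite μ x L hL hs t hB hlaw
  · intro S hS hs hlaw t ht hcl
    obtain ⟨B, hB⟩ := hbd t ht
    refine disc_primes μ x S hS hs t hB fun p hp => ?_
    obtain ⟨L, i1, i2, i3, h1, h2⟩ := hlaw p hp
    exact ⟨L, i1, i2, i3, h1, h2 t ht hcl⟩
  · intro t ht hK r
    obtain ⟨B, hB⟩ := hbd t ht
    exact conc μ x t hB hK r

end Pool.Agent.Results.MP_c481b3_nt.LinearlyDisjointFields
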