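import Pool.Agent.X289.MultiF

/-!
# The joint Sato-Tate law of several elliptic curves

Let `E_i` be elliptic curves without complex multiplication over a number field `K` for which the
Sato-Tate law is known (for instance `K` totally real), no two of which are isogenous over an algebraic
closure, and let `A` be isogenous to the product of the `E_i`.  The Sato-Tate group of `A` is the product
of copies of `SU(2)`; a class in it is determined by the angles `θ_i ∈ [0, π]` of the `E_i`.  The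
criterion of Serre for the Sato-Tate law of `A` asks for a continuation to `Re s ≥ 1` without zeros and
poles of the `L`-functions of all tensor products `Sym^{a_i} E_i`.

The theorem assumes only that each of them has some meromorphic continuation to a neighbourhood of each
point of `Re s = 1`, with zeros and poles allowed.  The law then holds if and only if no one of the
finitely many functions `L(Sym² E_i × Sym² E_j, s)`, `i ≠ j`, has a pole at `s = 1`, and if and only if
for no pair `i ≠ j` the absolute values of the normalised traces of `E_i` and `E_j` are asymptotically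
equal for almost all primes.
-/

set_option autoImplicit false
set_option linter.unusedSectionVars false

namespace Pool.Agent.Results.MP_c481b3_nt.ProductsOfCurves

open NumberField IsDedekindDomain Filter Topology MeasureTheory

section

variable {K : Type} [Field K] [NumberField K] {ι : Type} [Fintype ι] [DecidableEq ι]

/-- The average of `g` over the primes of `K` of norm at most `N`. -/
noncomputable def avg (g : HeightOneSpectrum (𝓞 K) → ℝ) (N : ℕ) : ℝ :=
  (∑ᶠ v : {v : HeightOneSpectrum (𝓞 K) // Ideal.absNorm v.asIdeal ≤ N}, g v.1) /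
    (Nat.card {v : HeightOneSpectrum (𝓞 K) // Ideal.absNorm v.asIdeal ≤ N} : ℝ)

/-- The angles are distributed by the Sato-Tate law. -/
def SatoTate (θ : HeightOneSpectrum (𝓞 K) → ℝ) : Prop :=
  ∀ f : ℝ → ℝ, Continuous f → Tendsto (avg fun v => f (2 * Real.cos (θ v))) atTop
    (𝓝 (2 / Real.pi * ∫ t in (0 : ℝ)..Real.pi, f (2 * Real.cos t) * Real.sin t ^ 2))

/-- The tuples of the angles are distributed by the product of the Sato-Tate laws. -/
def JointSatoTate (θ : ι → HeightOneSpectrum (𝓞 K) → ℝ) : Prop :=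
  ∀ f : (ι → ℝ) → ℝ, Continuous f →
    Tendsto (avg fun v => f fun i => 2 * Real.cos (θ i v)) atTop
      (𝓝 (∫ t in Set.Icc (0 : ι → ℝ) (fun _ => Real.pi), f (fun i => 2 * Real.cos (t i)) *
        ∏ i, (2 / Real.pi * Real.sin (t i) ^ 2)))

/-- The absolute values of the traces are asymptotically equal for almost all primes: the average of
`|(2 cos θ_v)² - (2 cos θ'_v)²|` tends to zero. -/
def Coincide (θ θ' : HeightOneSpectrum (𝓞 K) → ℝ) : Prop :=
  Tendsto (avg fun v => |(2 * Real.cos (θ v)) ^ 2 - (2 * Real.cos (θ' v)) ^ 2|) atTop (𝓝 0)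

/-- The Euler product of the tensor product of the `Sym^{a_i}`, with the local factors
`∏_k (1 - ∏_i exp(i (a_i - 2 k_i) θ_i) q_v^{-s})⁻¹` over all tuples `k` with `0 ≤ k_i ≤ a_i`. -/
noncomputable def LFun (θ : ι → HeightOneSpectrum (𝓞 K) → ℝ) (a : ι → ℕ) (s : ℂ) : ℂ :=
  ∏' v : HeightOneSpectrum (𝓞 K), (∏ k : (i : ι) → Fin (a i + 1),
    (1 - (∏ i, Complex.exp ((((a i : ℝ) - 2 * ((k i : ℕ) : ℝ)) * θ i v : ℝ) * Complex.I)) *
      (Ideal.absNorm v.asIdeal : ℂ) ^ (-s)))⁻¹

/-- `Λ` is a meromorphic continuation of `LFun θ a` to a neighbourhood of `1 + iτ`. -/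
def IsContinuation (θ : ι → HeightOneSpectrum (𝓞 K) → ℝ) (a : ι → ℕ) (τ : ℝ) (Λ : ℂ → ℂ) : Prop :=
  MeromorphicAt Λ (1 + τ * Complex.I) ∧
    ∀ᶠ s in 𝓝 ((1 : ℂ) + τ * Complex.I), (1 : ℝ) < s.re → Λ s = LFun θ a s

/-- The exponent `2` at `i` and `j` and the exponent `0` elsewhere. -/
def twoTwo (i j k : ι) : ℕ := if k = i ∨ k = j then 2 else 0

end

section Bridge

open Pool.Agent.TH553.ST Pool.Agent.TH553.RS Pool.Agent.W540.BE
open Pool.Agent.X289.Dens Pool.Agent.X289.Cls Pool.Agent.X289.Multi Pool.Agent.X289.DensM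

variable {F : Type} [Field F] [NumberField F]

theorem avg_eq (g : HeightOneSpectrum (𝓞 F) → ℝ) : avg g = mn g := by
  funext N
  have hs : ∀ v, v ∈ upto F N ↔ Ideal.absNorm v.asIdeal ≤ N := fun v => mem_upto
  let e : {v : HeightOneSpectrum (𝓞 F) // Ideal.absNorm v.asIdeal ≤ N} ≃ (upto F N) :=
    Equiv.subtypeEquivRight fun v => (hs v).symm
  have hfin : Finite {v : HeightOneSpectrum (𝓞 F) // Ideal.absNorm v.asIdeal ≤ N} :=
    Finite.of_equiv _ e.symm
  unfold avg mn
  have h1 : (∑ᶠ v : {v : HeightOneSpectrum (𝓞 F) // Ideal.absNorm v.asIdeal ≤ N}, g v.1) =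
      ∑ v ∈ upto F N, g v := by
    rw [← Finset.sum_coe_sort, ← finsum_eq_sum_of_fintype, ← finsum_comp_equiv e]
    rfl
  have h2 : Nat.card {v : HeightOneSpectrum (𝓞 F) // Ideal.absNorm v.asIdeal ≤ N} =
      (upto F N).card := by
    rw [Nat.card_congr e, Nat.card_eq_fintype_card, Fintype.card_coe]
  rw [h1, h2, smul_eq_mul, div_eq_inv_mul]

theorem stl_of {θ : HeightOneSpectrum (𝓞 F) → ℝ} (h : SatoTate θ) : STL θ := by
  intro f hf
  have h1 := h (fun x => f (x / 2)) (hf.comp (continuous_id.div_const 2))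
  have e : ∀ t : ℝ, 2 * Real.cos t / 2 = Real.cos t := fun t => by ring
  simp only [e] at h1
  rw [avg_eq] at h1
  have h2 : J (dk 1) f =
      2 / Real.pi * ∫ t in (0 : ℝ)..Real.pi, f (Real.cos t) * Real.sin t ^ 2 := by
    unfold J dk
    have e : ∀ t : ℝ, f (Real.cos t) * (2 * Real.sin ((1 : ℕ) * t) ^ 2) =
        2 * (f (Real.cos t) * Real.sin t ^ 2) := fun t => by
      rw [Nat.cast_one, one_mul]
      ring
    simp only [e]
    rw [intervalIntegral.integral_const_mul]
    ring
  rw [h2]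
  exact h1

variable {ι : Type} [Fintype ι] [DecidableEq ι] {θ : ι → HeightOneSpectrum (𝓞 F) → ℝ}

theorem joint_iff : JointSatoTate θ ↔ ∀ f : (ι → ℝ) → ℝ, Continuous f →
    Tendsto (mn fun v => f fun i => Real.cos (θ i v)) atTop (𝓝 (Im f)) := by
  have hI : ∀ f : (ι → ℝ) → ℝ, Im f = ∫ t in Set.Icc (0 : ι → ℝ) (fun _ => Real.pi),
      f (fun i => Real.cos (t i)) * ∏ i, (2 / Real.pi * Real.sin (t i) ^ 2) := by
    intro f
    unfold Im dk
    have e : ∀ t : ι → ℝ, ∏ i, (1 / Real.pi * (2 * Real.sin ((1 : ℕ) * t i) ^ 2)) =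
        ∏ i, (2 / Real.pi * Real.sin (t i) ^ 2) := fun t => by
      refine Finset.prod_congr rfl fun i _ => ?_
      rw [Nat.cast_one, one_mul]
      ring
    simp only [e]
  constructor
  · intro h f hf
    have h1 := h (fun x => f fun i => x i / 2)
      (hf.comp (continuous_pi fun i => (continuous_apply i).div_const 2))
    have e : ∀ t : ℝ, 2 * Real.cos t / 2 = Real.cos t := fun t => by ring
    simp only [e] at h1
    rw [avg_eq] at h1
    rw [hI]
    exact h1
  · intro h f hf
    have h1 := h (fun x => f fun i => 2 * x i)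
      (hf.comp (continuous_pi fun i => continuous_const.mul (continuous_apply i)))
    rw [hI] at h1
    rw [avg_eq]
    exact h1

end Bridge

/-- **The joint Sato-Tate law of several elliptic curves.**  Let `K` be a number field and let
`θ_i(v)`, `i ∈ ι`, be finitely many families of angles for the primes `v` of `K`, each of which is
distributed by the Sato-Tate law.  Suppose that for all exponents `a_i ≥ 0` of which at least two are not
zero the Euler product of the tensor product of the `Sym^{a_i}` has a meromorphic continuation to a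
neighbourhood of each point of `Re s = 1`.  Then the following are equivalent: the joint law is the
product of the Sato-Tate laws; for `i ≠ j` the continuation of `L(Sym²_i × Sym²_j, s)` has no pole at
`s = 1`; for `i ≠ j` the absolute values of the traces of `θ_i` and `θ_j` do not coincide
asymptotically for almost all primes.  If this is the case then none of the continuations has a zero or a
pole on `Re s = 1`. -/
theorem result {K : Type} [Field K] [NumberField K] {ι : Type} [Fintype ι] [DecidableEq ι]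
    (θ : ι → HeightOneSpectrum (𝓞 K) → ℝ) (hθ : ∀ i, SatoTate (θ i))
    (hL : ∀ a : ι → ℕ, (∃ i j, i ≠ j ∧ a i ≠ 0 ∧ a j ≠ 0) → ∀ τ : ℝ, ∃ Λ : ℂ → ℂ,
      IsContinuation θ a τ Λ) :
    (JointSatoTate θ ↔ ∀ i j, i ≠ j → ∀ Λ : ℂ → ℂ, IsContinuation θ (twoTwo i j) 0 Λ →
      0 ≤ meromorphicOrderAt Λ 1) ∧
    (JointSatoTate θ ↔ ∀ i j, i ≠ j → ¬ Coincide (θ i) (θ j)) ∧
    (JointSatoTate θ → ∀ a : ι → ℕ, (∃ i j, i ≠ j ∧ a i ≠ 0 ∧ a j ≠ 0) → ∀ (τ : ℝ) (Λ : ℂ → ℂ),
      IsContinuation θ a τ Λ → meromorphicOrderAt Λ (1 + τ * Complex.I) = 0) := by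
  have hlaw : ∀ i, Pool.Agent.X289.Multi.STL (θ i) := fun i => stl_of (hθ i)
  have h1 : JointSatoTate θ → ∀ i j, i ≠ j → ∀ Λ : ℂ → ℂ, IsContinuation θ (twoTwo i j) 0 Λ →
      0 ≤ meromorphicOrderAt Λ 1 := fun h i j _ Λ hΛ =>
    Pool.Agent.X289.Multi.pole_of_joint (joint_iff.1 h) (i := i) (j := j) hΛ
  have h2 : (∀ i j, i ≠ j → ∀ Λ : ℂ → ℂ, IsContinuation θ (twoTwo i j) 0 Λ →
      0 ≤ meromorphicOrderAt Λ 1) → JointSatoTate θ := fun h =>
    joint_iff.2 fun f hf => Pool.Agent.X289.Multi.joint hlaw hL h hf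
  have h3 : JointSatoTate θ → ∀ i j, i ≠ j → ¬ Coincide (θ i) (θ j) := by
    intro h i j hij hc
    obtain ⟨U, hU⟩ : ∃ U : Ultrafilter ℝ, (U : Filter ℝ) ≤ 𝓝[>] 0 :=
      ⟨Ultrafilter.of (𝓝[>] 0), Ultrafilter.of_le _⟩
    unfold Coincide at hc
    rw [avg_eq] at hc
    have h4 := Pool.Agent.X289.Multi.one_of_coi (hlaw i) hc hU
    obtain ⟨Λ, hΛ⟩ := hL (twoTwo i j) (Pool.Agent.X289.Multi.two_w2 hij) 0
    have h5 := h1 h i j hij Λ hΛ
    obtain ⟨e, h6, h7⟩ := Pool.Agent.X289.Al.ord_LA (Pool.Agent.X289.Multi.norm_am θ _)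
      (Pool.Agent.X289.Multi.sum_am θ _) (Λ := Λ) (τ := 0) hΛ
    have h8 := h7 U hU
    have h9 : ∀ v, ∏ k, Pool.Agent.X289.Uch.Cf (twoTwo i j k) (Real.cos (θ k v)) =
        Pool.Agent.X289.Uch.Cf 2 (Real.cos (θ i v)) * Pool.Agent.X289.Uch.Cf 2
          (Real.cos (θ j v)) := fun v => Pool.Agent.X289.Multi.prod_w2 hij v
    simp only [h9, Pool.Agent.X289.SymM.cw_zero, mul_one] at h8
    rw [h4] at h8
    have e1 : (1 : ℂ) + ((0 : ℝ) : ℂ) * Complex.I = 1 := by simp
    rw [e1] at h6
    rw [h6] at h5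
    have h10 : 0 ≤ e := by exact_mod_cast h5
    have h11 : (0 : ℝ) ≤ e := by exact_mod_cast h10
    linarith
  refine ⟨⟨h1, h2⟩, ⟨h3, fun h => h2 fun i j hij Λ hΛ => ?_⟩, fun h a ha τ Λ hΛ => ?_⟩
  · refine Pool.Agent.X289.Multi.no_pole_of_no_coi hlaw hL hij (fun hc => h i j hij ?_) hΛ
    unfold Coincide
    rw [avg_eq]
    exact hc
  · have h4 := Pool.Agent.X289.Multi.orders hlaw hL (h1 h) ha (τ := τ) hΛ
    rw [h4]
    rfl

end Pool.Agent.Results.MP_c481b3_nt.ProductsOfCurves
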