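import Pool.Agent.W529.ST.Wrap

/-!
# The Sato-Tate distributions of the quadratic twists of an abelian variety

Let `A` be an abelian variety of dimension `g` over a number field `K`, `G = ST(A)` its Sato-Tate group,
a closed subgroup of the compact group `H = USp(2g)`, and `x_v ∈ G` a representative of the conjugacy
class of the normalised Frobenius at the prime `v` of good reduction.  The group `G` contains `z = -1`.
For a nonzero `d ∈ 𝓞_K` the quadratic twist `A_d` of `A` has the normalised Frobenius
`± x_v` at `v ∤ 2d`, with the sign `+` if and only if `d` is a square modulo `v`.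

The distribution of the classes is not known, not even for `A`.  The theorem says that at every large
scale `N` all twists outside of a set with a bounded number of elements have the same distribution of
classes of norm at most `N`, up to `1/k`: it is the distribution for `A`, made symmetric under `-1`.  The
bound depends only on `H` and `k`, so only on the dimension of `A` and on `k`.
-/

set_option autoImplicit false

namespace Pool.Agent.Results.MP_c481b3_nt.QuadraticTwists

open NumberField IsDedekindDomain Filter Topology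

/-- The mean of `φ` over the primes of `K` of norm at most `N`. -/
noncomputable def mean (K : Type) [Field K] [NumberField K] (φ : HeightOneSpectrum (𝓞 K) → ℝ)
    (N : ℕ) : ℝ :=
  (∑ᶠ v : {v : HeightOneSpectrum (𝓞 K) // Ideal.absNorm v.asIdeal ≤ N}, φ v.1) /
    (Nat.card {v : HeightOneSpectrum (𝓞 K) // Ideal.absNorm v.asIdeal ≤ N} : ℝ)

/-- Test functions on the set of conjugacy classes of `G`: class functions on `G` that satisfy
`|f(g) - f(h)| ≤ dist g h` and `|f| ≤ 1`. -/
def IsTest {G : Type} [Group G] [MetricSpace G] (f : G → ℝ) : Prop :=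
  LipschitzWith 1 f ∧ (∀ g, |f g| ≤ 1) ∧ ∀ g h, f (h * g * h⁻¹) = f g

/-- The elements `y v` of `G` represent the classes of the twist by `d` of the system of classes of the
elements `x v`, at all primes `v ∤ 2d` outside of `Z`: the class of `y v` is the class of `x v` if `d` is
a square modulo `v`, and the class of `z * x v` if it is not. -/
def IsTwist {K : Type} [Field K] [NumberField K] {G : Type} [Group G] (z : G)
    (Z : Set (HeightOneSpectrum (𝓞 K))) (x : HeightOneSpectrum (𝓞 K) → G) (d : 𝓞 K)
    (y : HeightOneSpectrum (𝓞 K) → G) : Prop :=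
  ∀ v, v ∉ Z → 2 * d ∉ v.asIdeal →
    (IsSquare (Ideal.Quotient.mk v.asIdeal d) → IsConj (x v) (y v)) ∧
    (¬ IsSquare (Ideal.Quotient.mk v.asIdeal d) → IsConj (z * x v) (y v))

theorem test_conj {G : Type} [Group G] [MetricSpace G] {f : G → ℝ} (hf : IsTest f) {a b : G}
    (h : IsConj a b) : f b = f a := by
  obtain ⟨c, hc⟩ := isConj_iff.1 h
  rw [← hc]
  exact hf.2.2 a c

/-- **All but a bounded number of twists have the same distribution.**  Let `H` be a compact metric
group (for example `USp(2g)`), `z ∈ H` (for example `-1`) and `k ≥ 1`.  There is a number `C` with the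
following property.  Let `K` be a number field, `T` a finite set of nonzero elements of `𝓞_K` in different
classes modulo squares of `K` and `Z` a finite set of primes.  For every large `N`, every subgroup `G` of
`H` with `z ∈ G`, all `x_v ∈ G`, for the primes `v` of `K`, and all representatives `y_{d,v} ∈ G` of the
classes of the twists by `d ∈ T`, there are at most `C` elements of `T` such that for all the
other `d ∈ T` and for all test functions `f` on the set of conjugacy classes of `G` the mean of
`f(y_{d,v})` over the primes of norm at most `N` differs from the mean of `(f(x_v) + f(z x_v)) / 2` by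
less than `1 / k`. -/
theorem result (H : Type) [Group H] [MetricSpace H] [CompactSpace H] (z : H) (k : ℕ) (hk : 1 ≤ k) :
    ∃ C : ℕ, ∀ (K : Type) [Field K] [NumberField K] (T : Finset (𝓞 K)) (_ : ∀ d ∈ T, d ≠ 0)
      (_ : ∀ d ∈ T, ∀ e ∈ T, d ≠ e → ¬ IsSquare ((d * e : 𝓞 K) : K))
      (Z : Set (HeightOneSpectrum (𝓞 K))) (_ : Z.Finite),
      ∀ᶠ N : ℕ in atTop, ∀ (G : Subgroup H) (hz : z ∈ G) (x : HeightOneSpectrum (𝓞 K) → G)
        (y : 𝓞 K → HeightOneSpectrum (𝓞 K) → G), (∀ d ∈ T, IsTwist ⟨z, hz⟩ Z x d (y d)) →
        ∃ E : Finset (𝓞 K), E ⊆ T ∧ E.card ≤ C ∧ ∀ d ∈ T, d ∉ E → ∀ f : G → ℝ, IsTest f →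
          |mean K (fun v => f (y d v)) N - mean K (fun v => (f (x v) + f (⟨z, hz⟩ * x v)) / 2) N| <
            1 / k := by
  classical
  have hkR : (0 : ℝ) < k := by exact_mod_cast hk
  -- the cells
  obtain ⟨t, _, htf, ht⟩ := Metric.finite_approx_of_totallyBounded
    (isCompact_univ (X := H)).totallyBounded (1 / (8 * k)) (by positivity)
  have : Fintype t := htf.fintype
  have hcov : ∀ h : H, ∃ a : t, dist h a < 1 / (8 * k) := by
    intro h
    have h3 : h ∈ ⋃ y ∈ t, Metric.ball y (1 / (8 * (k : ℝ))) := ht (Set.mem_univ h)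
    simp only [Set.mem_iUnion, Metric.mem_ball] at h3
    obtain ⟨a, ha, hxa⟩ := h3
    exact ⟨⟨a, ha⟩, hxa⟩
  choose nr hnr using hcov
  let φ := Fintype.equivFin t
  let ν := Fintype.card t
  refine ⟨16 * ν * k ^ 2, ?_⟩
  intro K _ _ T hT hT' Z hZ
  filter_upwards [Pool.Agent.W529.ST.count_classes T hT hT' hZ ν k hk] with N hN
  intro G hz x y hy
  let zG : G := ⟨z, hz⟩
  let sd : 𝓞 K → HeightOneSpectrum (𝓞 K) → G := fun d v =>
    if v ∉ Z ∧ 2 * d ∉ v.asIdeal then
      (if IsSquare (Ideal.Quotient.mk v.asIdeal d) then x v else zG * x v) else y d v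
  have h1 := hN G (fun g => zG * g) (fun g => φ (nr g)) x sd (by
    intro d hd v hv h2d
    have hsd : sd d v = if IsSquare (Ideal.Quotient.mk v.asIdeal d) then x v else zG * x v :=
      if_pos ⟨hv, h2d⟩
    rcases Pool.Agent.W529.ST.ch_dichotomy d h2d with ⟨h3, h4⟩ | ⟨h3, h4⟩
    · rw [hsd, if_pos h3]
      refine ⟨fun _ => rfl, fun h => ?_⟩
      rw [h4] at h
      norm_num at h
    · rw [hsd, if_neg h3]
      refine ⟨fun h => ?_, fun _ => rfl⟩
      rw [h4] at h
      norm_num at h)
  refine ⟨_, Finset.filter_subset _ _, h1, fun d hd hdE f hf => ?_⟩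
  by_contra hge
  apply hdE
  refine Finset.mem_filter.2 ⟨hd, f, hf.2.1, ?_, ?_⟩
  · -- the values on the cells
    have hex : ∀ c : Fin ν, ∃ r : ℝ, |r| ≤ 1 ∧ ∀ g : G, φ (nr g) = c → |f g - r| ≤ 1 / (4 * k) := by
      intro c
      by_cases hc : ∃ g : G, φ (nr g) = c
      · obtain ⟨g₀, hg₀⟩ := hc
        refine ⟨f g₀, hf.2.1 _, fun g hg => ?_⟩
        have h2 : nr (g : H) = nr (g₀ : H) := φ.injective (by rw [hg, hg₀])
        have h3 := hnr (g : H)
        have h4 := hnr (g₀ : H)
        rw [← h2] at h4
        have h5 := hf.1.dist_le_mul g g₀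
        rw [NNReal.coe_one, one_mul, Real.dist_eq] at h5
        refine h5.trans ?_
        have h6 : dist g g₀ = dist (g : H) (g₀ : H) := rfl
        rw [h6]
        have h7 := dist_triangle_right (g : H) (g₀ : H) (nr (g : H))
        have h8 : (1 : ℝ) / (4 * k) = 1 / (8 * k) + 1 / (8 * k) := by
          field_simp
          norm_num
        rw [h8]
        linarith
      · exact ⟨0, by simp, fun g hg => absurd ⟨g, hg⟩ hc⟩
    choose r hr1 hr2 using hex
    exact ⟨r, hr1, fun v _ => ⟨hr2 _ _ rfl, hr2 _ _ rfl⟩⟩
  · rw [not_lt] at hge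
    have e1 : ∀ v, f (sd d v) = f (y d v) := by
      intro v
      by_cases hv : v ∉ Z ∧ 2 * d ∉ v.asIdeal
      · have hsd : sd d v = if IsSquare (Ideal.Quotient.mk v.asIdeal d) then x v else zG * x v :=
          if_pos hv
        obtain ⟨h5, h6⟩ := hy d hd v hv.1 hv.2
        rw [hsd]
        split_ifs with h7
        · exact (test_conj hf (h5 h7)).symm
        · exact (test_conj hf (h6 h7)).symm
      · have hsd : sd d v = y d v := if_neg hv
        rw [hsd]
    have e2 : (fun v => f (sd d v)) = fun v => f (y d v) := funext e1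
    rw [e2]
    exact hge

end Pool.Agent.Results.MP_c481b3_nt.QuadraticTwists
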